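import Pool.Agent.J4H21.EE.Stm
import Pool.Agent.H246KN.Basic

set_option autoImplicit false

/-! Project EE (helper21): the job KILL. -/

namespace Pool.Agent.J4H15.EE

open Finset Filter Topology KN Pool.Agent.J4H21.EE
open scoped Classical

theorem B_nil (n : ℕ) : B n [] = (S n).card := by
  unfold B
  congr 1
  ext v
  simp

theorem t_KILL : S_PRE → S_KILL := by
  intro hPRE N J m γ hJ hJN h0 h1 u hu hm
  have key : ∀ k : ℕ, k < J → (B (N - (J - k)) (u.drop (J - k)) : ℝ) ≤
      (1 - γ) ^ (((Ico (J - k) J).filter (fun i => Chg N γ u i)).card) * (S (N - J)).card := by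
    intro k
    induction k with
    | zero =>
      intro _
      have : u.drop (J - 0) = [] := by
        rw [List.drop_eq_nil_iff]; omega
      rw [this, Nat.sub_zero, B_nil]
      simp
    | succ k ih =>
      intro hk
      have ih' := ih (by omega)
      have hlt : J - (k + 1) < u.length := by omega
      have hd : u.drop (J - (k + 1)) = u[J - (k + 1)] :: u.drop (J - k) := by
        rw [List.drop_eq_getElem_cons hlt]
        congr 2
        omega
      have hN : N - (J - (k + 1)) = (N - (J - k)) + 1 := by omega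
      have hI : Ico (J - (k + 1)) J = insert (J - (k + 1)) (Ico (J - k) J) := by
        ext i
        simp only [mem_Ico, mem_insert]
        omega
      have hpre := hPRE (N - (J - k)) (u[J - (k + 1)]) (u.drop (J - k))
      have hpreR : (B (N - (J - k) + 1) (u[J - (k + 1)] :: u.drop (J - k)) : ℝ) +
          (A (N - (J - k) + 1) (u[J - (k + 1)] :: u.drop (J - k)) : ℝ) ≤
          (B (N - (J - k)) (u.drop (J - k)) : ℝ) := by exact_mod_cast hpre
      have hA0 : (0 : ℝ) ≤ (A (N - (J - k) + 1) (u[J - (k + 1)] :: u.drop (J - k)) : ℝ) :=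
        Nat.cast_nonneg _
      rw [hI, filter_insert]
      by_cases hc : Chg N γ u (J - (k + 1))
      · rw [if_pos hc, card_insert_of_notMem, pow_succ]
        · have hc' : γ * (B (N - (J - k)) (u.drop (J - k)) : ℝ) ≤
              (A (N - (J - k) + 1) (u[J - (k + 1)] :: u.drop (J - k)) : ℝ) := by
            have h2 := hc
            unfold Chg at h2
            rw [hd] at h2
            have e1 : N - (J - (k + 1)) - 1 = N - (J - k) := by omega
            rw [e1, hN] at h2
            simpa using h2
          rw [hd, hN]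
          calc (B (N - (J - k) + 1) (u[J - (k + 1)] :: u.drop (J - k)) : ℝ)
              ≤ (1 - γ) * (B (N - (J - k)) (u.drop (J - k)) : ℝ) := by linarith
            _ ≤ (1 - γ) * ((1 - γ) ^ (((Ico (J - k) J).filter (fun i => Chg N γ u i)).card) *
                (S (N - J)).card) := mul_le_mul_of_nonneg_left ih' (by linarith)
            _ = _ := by ring
        · simp only [mem_filter, mem_Ico, not_and]
          intro h; omega
      · rw [if_neg hc, hd, hN]
        linarith
  obtain ⟨n, rfl⟩ : ∃ n, N = n + 1 := ⟨N - 1, by omega⟩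
  have hkey := key (J - 1) (by omega)
  have e2 : J - (J - 1) = 1 := by omega
  rw [e2] at hkey
  obtain ⟨d, u', rfl⟩ : ∃ d u', u = d :: u' := by
    cases u with
    | nil => simp at hu; omega
    | cons d u' => exact ⟨d, u', rfl⟩
  have hpre := hPRE n d u'
  have hpreR : (B (n + 1) (d :: u') : ℝ) + (A (n + 1) (d :: u') : ℝ) ≤ (B n u' : ℝ) := by
    exact_mod_cast hpre
  have hB0 : (0 : ℝ) ≤ (B (n + 1) (d :: u') : ℝ) := Nat.cast_nonneg _
  simp only [List.drop_succ_cons, List.drop_zero, Nat.add_sub_cancel] at hkey
  have hpow : (1 - γ) ^ (((Ico 1 J).filter (fun i => Chg (n + 1) γ (d :: u') i)).card) ≤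
      (1 - γ) ^ m := pow_le_pow_of_le_one (by linarith) (by linarith) hm
  calc (A (n + 1) (d :: u') : ℝ) ≤ (B n u' : ℝ) := by linarith
    _ ≤ _ := hkey
    _ ≤ _ := mul_le_mul_of_nonneg_right hpow (Nat.cast_nonneg _)

end Pool.Agent.J4H15.EE
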