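import Pool.Agent.J4H21.EE.Stm
import Pool.Agent.H246KN.Basic

set_option autoImplicit false

/-! Project EE (helper21): the job TWO. -/

namespace Pool.Agent.J4H15.EE

open Finset Filter Topology KN Pool.Agent.J4H21.EE
open scoped Classical

noncomputable section

/-- the possible last steps -/
def E1 (w : List Dir) : Finset Dir := univ.filter (fun d => SAW (d :: w))

/-- the possible first steps -/
def E0 (w : List Dir) : Finset Dir := univ.filter (fun e => SAW (w ++ [e]))

theorem path_concat (w : List Dir) (e : Dir) :
    path (w ++ [e]) = (path w).map (fun p => p + vec e) ++ [0] := by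
  induction w with
  | nil => simp [path, pos]
  | cons d w ih =>
    simp only [List.cons_append, path, List.map_cons, ih, pos_append, pos]
    congr 1
    abel

theorem saw_of_cons {d : Dir} {w : List Dir} (h : SAW (d :: w)) : SAW w := by
  unfold SAW at *
  simp only [path, List.nodup_cons] at h
  exact h.2

theorem saw_of_concat {e : Dir} {w : List Dir} (h : SAW (w ++ [e])) : SAW w := by
  unfold SAW at *
  rw [path_concat, List.nodup_append] at h
  exact List.Nodup.of_map _ h.1

theorem mem_S {n : ℕ} {w : List Dir} : w ∈ S n ↔ w.length = n ∧ SAW w := by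
  unfold S; rw [mem_filter, mem_W]

theorem mem_P {n : ℕ} {w : List Dir} : w ∈ P n ↔ w.length = n ∧ SAP w := by
  unfold P; rw [mem_filter, mem_W]

theorem card_erase_five (d : Dir) : ((univ : Finset Dir).erase d).card = 5 := by
  rw [card_erase_of_mem (mem_univ d), card_univ]; rfl

theorem E1_le {w : List Dir} (hw : w ≠ []) : (E1 w).card ≤ 5 := by
  obtain ⟨d0, w', rfl⟩ := List.exists_cons_of_ne_nil hw
  rw [← card_erase_five (neg d0)]
  apply card_le_card
  intro d hd
  rw [mem_erase]
  refine ⟨?_, mem_univ _⟩
  rintro rfl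
  unfold E1 at hd
  rw [mem_filter] at hd
  have h := hd.2
  unfold SAW at h
  simp only [path, pos, List.nodup_cons, List.mem_cons, not_or] at h
  apply h.1.2
  have : pos w' + vec d0 + vec (neg d0) = pos w' := by rw [vec_neg]; abel
  rw [this]
  exact pos_mem_path w'

theorem E0_le {w : List Dir} (hw : w ≠ []) : (E0 w).card ≤ 5 := by
  obtain ⟨w', e0, rfl⟩ : ∃ w' e0, w = w' ++ [e0] :=
    ⟨w.dropLast, w.getLast hw, (List.dropLast_append_getLast hw).symm⟩
  rw [← card_erase_five (neg e0)]
  apply card_le_card
  intro d hd
  rw [mem_erase]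
  refine ⟨?_, mem_univ _⟩
  rintro rfl
  unfold E0 at hd
  rw [mem_filter] at hd
  have h := hd.2
  unfold SAW at h
  rw [path_concat, path_concat, List.nodup_append] at h
  refine h.2.2 0 ?_ 0 (by simp) rfl
  rw [List.mem_map]
  refine ⟨vec e0, ?_, by rw [vec_neg]; abel⟩
  rw [List.mem_append]
  left
  rw [List.mem_map]
  exact ⟨0, zero_mem_path w', by abel⟩

theorem sum_E1 (n : ℕ) : ∑ w ∈ S n, (E1 w).card = (S (n + 1)).card := by
  rw [Finset.card_eq_sum_card_fiberwise (s := S (n + 1)) (f := List.tail) (t := S n)]
  · apply Finset.sum_congr rfl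
    intro w hw
    have : (S (n + 1)).filter (fun v => v.tail = w) = (E1 w).image (fun d => d :: w) := by
      ext v
      rw [mem_filter, mem_image, mem_S]
      constructor
      · rintro ⟨⟨hl, hs⟩, ht⟩
        cases v with
        | nil => simp at hl
        | cons d v' =>
          simp only [List.tail_cons] at ht
          subst ht
          exact ⟨d, by unfold E1; rw [mem_filter]; exact ⟨mem_univ _, hs⟩, rfl⟩
      · rintro ⟨d, hd, rfl⟩
        unfold E1 at hd
        rw [mem_filter] at hd
        exact ⟨⟨by simp [(mem_S.1 hw).1], hd.2⟩, rfl⟩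
    rw [this, card_image_of_injective]
    intro a b h
    simpa using h
  · intro v hv
    rw [mem_coe, mem_S] at *
    cases v with
    | nil => simp at hv
    | cons d v' =>
      exact ⟨by simpa using hv.1, saw_of_cons hv.2⟩

theorem sum_E0 (n : ℕ) : ∑ w ∈ S n, (E0 w).card = (S (n + 1)).card := by
  rw [Finset.card_eq_sum_card_fiberwise (s := S (n + 1)) (f := List.dropLast) (t := S n)]
  · apply Finset.sum_congr rfl
    intro w hw
    have : (S (n + 1)).filter (fun v => v.dropLast = w) = (E0 w).image (fun e => w ++ [e]) := by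
      ext v
      rw [mem_filter, mem_image, mem_S]
      constructor
      · rintro ⟨⟨hl, hs⟩, ht⟩
        have hv : v ≠ [] := by rintro rfl; simp at hl
        have e1 := List.dropLast_append_getLast hv
        rw [ht] at e1
        refine ⟨v.getLast hv, ?_, e1⟩
        unfold E0
        rw [mem_filter, e1]
        exact ⟨mem_univ _, hs⟩
      · rintro ⟨d, hd, rfl⟩
        unfold E0 at hd
        rw [mem_filter] at hd
        exact ⟨⟨by simp [(mem_S.1 hw).1], hd.2⟩, by simp⟩
    rw [this, card_image_of_injective]
    intro a b h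
    simpa using h
  · intro v hv
    rw [mem_coe, mem_S] at *
    have hv' : v ≠ [] := by rintro rfl; simp at hv
    have e1 := List.dropLast_append_getLast hv'
    refine ⟨by rw [List.length_dropLast, hv.1]; rfl, ?_⟩
    have h2 := hv.2
    rw [← e1] at h2
    exact saw_of_concat h2

theorem two_ends {n : ℕ} (hn : 1 ≤ n) {w : List Dir} (hw : w ∈ S n) {d e : Dir}
    (hd : SAW (d :: w)) (he : SAW (w ++ [e])) : d :: (w ++ [e]) ∈ S (n + 2) ∪ P (n + 2) := by
  have hlen : (d :: (w ++ [e])).length = n + 2 := by simp [(mem_S.1 hw).1]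
  rw [mem_union]
  by_cases h0 : pos (d :: (w ++ [e])) = 0
  · right
    rw [mem_P]
    refine ⟨hlen, ?_, h0, ?_⟩
    · have := even_of_closed h0
      omega
    · simp only [path, List.tail_cons]
      exact he
  · left
    rw [mem_S]
    refine ⟨hlen, ?_⟩
    unfold SAW at *
    simp only [path, List.nodup_cons] at hd ⊢
    refine ⟨?_, he⟩
    rw [path_concat, List.mem_append, not_or]
    constructor
    · rw [List.mem_map]
      rintro ⟨p, hp, hpe⟩
      apply hd.1
      have : pos w + vec d = p := by
        have h3 : pos (w ++ [e]) + vec d = pos w + vec d + vec e := by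
          rw [pos_append]; simp only [pos]; abel
        rw [h3] at hpe
        exact (add_right_cancel hpe).symm
      rw [this]; exact hp
    · simp only [List.mem_singleton]
      intro h; apply h0; simpa [pos] using h

theorem sum_both {n : ℕ} (hn : 1 ≤ n) :
    ∑ w ∈ S n, (E1 w).card * (E0 w).card ≤ (S (n + 2)).card + (P (n + 2)).card := by
  calc ∑ w ∈ S n, (E1 w).card * (E0 w).card
      ≤ ∑ w ∈ S n, ((S (n + 2) ∪ P (n + 2)).filter (fun v => v.tail.dropLast = w)).card := by
        apply Finset.sum_le_sum
        intro w hw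
        rw [← card_product]
        have hinj : Function.Injective (fun p : Dir × Dir => p.1 :: (w ++ [p.2])) := by
          rintro ⟨a, b⟩ ⟨a', b'⟩ h
          simpa using h
        rw [← card_image_of_injective _ hinj]
        apply card_le_card
        intro v hv
        rw [mem_image] at hv
        obtain ⟨⟨d, e⟩, hde, rfl⟩ := hv
        rw [mem_product] at hde
        unfold E1 E0 at hde
        simp only [mem_filter, mem_univ, true_and] at hde
        rw [mem_filter]
        refine ⟨two_ends hn hw hde.1 hde.2, by simp⟩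
    _ = ((S (n + 2) ∪ P (n + 2)).filter (fun v => v.tail.dropLast ∈ S n)).card := by
        rw [Finset.sum_card_fiberwise_eq_card_filter]
    _ ≤ (S (n + 2) ∪ P (n + 2)).card := card_filter_le _ _
    _ ≤ _ := card_union_le _ _

theorem t_TWO : S_TWO := by
  intro n hn
  have h1 : ∀ w ∈ S n, 5 * (E1 w).card + 5 * (E0 w).card ≤ 25 + (E1 w).card * (E0 w).card := by
    intro w hw
    have hw0 : w ≠ [] := by
      rintro rfl
      have := (mem_S.1 hw).1
      simp at this; omega
    have ha := E1_le hw0
    have hb := E0_le hw0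
    obtain ⟨x, hx⟩ : ∃ x, (E1 w).card + x = 5 := ⟨5 - (E1 w).card, by omega⟩
    obtain ⟨y, hy⟩ : ∃ y, (E0 w).card + y = 5 := ⟨5 - (E0 w).card, by omega⟩
    nlinarith [Nat.zero_le (x * y)]
  have h2 := Finset.sum_le_sum h1
  rw [sum_add_distrib, sum_add_distrib, ← mul_sum, ← mul_sum, sum_E1, sum_E0, sum_const,
    smul_eq_mul] at h2
  have h3 := sum_both hn
  omega

end

end Pool.Agent.J4H15.EE
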