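import Pool.Agent.J4H21.EE.Stm
import Pool.Agent.H246KN.Basic

set_option autoImplicit false

/-! Project EE (helper21): the job UNC. -/

namespace Pool.Agent.J4H15.EE

open Finset Filter Topology KN Pool.Agent.J4H21.EE
open scoped Classical

theorem sum_B (n k : ℕ) : ∑ u ∈ W k, B n u ≤ (S n).card := by
  unfold B
  have h1 : ∀ u ∈ W k, ((S n).filter (fun v => u <+: v)).card =
      ((S n).filter (fun v => u <+: v ∧ True)).card := by intro u _; simp
  have : ∑ u ∈ W k, ((S n).filter (fun v => u <+: v)).card =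
      ((W k).biUnion (fun u => (S n).filter (fun v => u <+: v))).card := by
    rw [Finset.card_biUnion]
    intro x hx y hy hxy
    rw [Function.onFun, Finset.disjoint_left]
    intro v hv hv'
    rw [mem_filter] at hv hv'
    rw [mem_coe, mem_W] at hx hy
    apply hxy
    have e1 := List.prefix_iff_eq_take.1 hv.2
    have e2 := List.prefix_iff_eq_take.1 hv'.2
    rw [e1, e2, hx, hy]
  rw [this]
  apply Finset.card_le_card
  intro v hv
  rw [mem_biUnion] at hv
  obtain ⟨u, _, hu⟩ := hv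
  exact (mem_filter.1 hu).1

theorem card_Dir : Fintype.card Dir = 6 := rfl

theorem sum_W_succ (k : ℕ) (f : List Dir → ℕ) : ∑ u ∈ W (k + 1), f u.tail = 6 * ∑ t ∈ W k, f t := by
  have : ∑ u ∈ W (k + 1), f u.tail = ∑ p ∈ (univ : Finset Dir) ×ˢ W k, f p.2 := by
    symm
    apply Finset.sum_nbij' (fun p => p.1 :: p.2) (fun u => (u.headD Dir.xp, u.tail))
    · intro p hp
      rw [mem_product, mem_W] at hp
      rw [mem_W]; simp [hp.2]
    · intro u hu
      rw [mem_W] at hu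
      rw [mem_product, mem_W]
      simp [hu]
    · intro p _; simp
    · intro u hu
      rw [mem_W] at hu
      cases u with
      | nil => simp at hu
      | cons d u => simp
    · intro p _; simp
  rw [this, sum_product]
  change ∑ _x : Dir, ∑ y ∈ W k, f y = 6 * ∑ t ∈ W k, f t
  rw [sum_const, card_univ, card_Dir, smul_eq_mul]

theorem iterTR (μ τ : ℝ) (hμ : 1 ≤ μ) (hτ : 0 < τ) (k n0 : ℕ)
    (h : ∀ n, n0 ≤ n → ∀ 𝒜 : Finset (List Dir), (∀ u ∈ 𝒜, u.length = k) →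
      (∑ u ∈ 𝒜, (A (n + 2) u : ℝ)) ≤ (μ ^ 2 + τ) * (∑ u ∈ 𝒜, (A n u : ℝ)) + τ * μ ^ n)
    (n : ℕ) (hn : n0 ≤ n) (𝒜 : Finset (List Dir)) (h𝒜 : ∀ u ∈ 𝒜, u.length = k) (j : ℕ) :
    (∑ u ∈ 𝒜, (A (n + 2 * j) u : ℝ)) ≤ (μ ^ 2 + τ) ^ j * (∑ u ∈ 𝒜, (A n u : ℝ)) +
      τ * j * (μ ^ 2 + τ) ^ j * μ ^ n := by
  have h1 : 1 ≤ μ ^ 2 + τ := by nlinarith
  induction j with
  | zero => simp
  | succ j ih =>
    have h2 := h (n + 2 * j) (by omega) 𝒜 h𝒜
    have e : n + 2 * (j + 1) = n + 2 * j + 2 := by ring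
    rw [e]
    have h3 : μ ^ (n + 2 * j) ≤ (μ ^ 2 + τ) ^ (j + 1) * μ ^ n := by
      rw [pow_add, pow_mul, mul_comm]
      apply mul_le_mul_of_nonneg_right _ (by positivity)
      calc (μ ^ 2) ^ j ≤ (μ ^ 2 + τ) ^ j := pow_le_pow_left₀ (by positivity) (by linarith) j
        _ ≤ (μ ^ 2 + τ) ^ (j + 1) := pow_le_pow_right₀ h1 (by omega)
    calc _ ≤ (μ ^ 2 + τ) * (∑ u ∈ 𝒜, (A (n + 2 * j) u : ℝ)) + τ * μ ^ (n + 2 * j) := h2
      _ ≤ (μ ^ 2 + τ) * ((μ ^ 2 + τ) ^ j * (∑ u ∈ 𝒜, (A n u : ℝ)) +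
          τ * j * (μ ^ 2 + τ) ^ j * μ ^ n) + τ * ((μ ^ 2 + τ) ^ (j + 1) * μ ^ n) := by
        apply add_le_add
        · exact mul_le_mul_of_nonneg_left ih (by linarith)
        · exact mul_le_mul_of_nonneg_left h3 hτ.le
      _ = _ := by push_cast; ring

theorem ratio_iter (μ : ℝ) (hb : Base μ) (j : ℕ) :
    Tendsto (fun n : ℕ => ((S (n + 2 * j)).card : ℝ) / (S n).card) atTop (𝓝 (μ ^ (2 * j))) := by
  have hμ : 0 < μ := by linarith [hb.ge]
  have hpos : ∀ n : ℕ, (0 : ℝ) < ((S n).card : ℝ) := fun n => lt_of_lt_of_le (by positivity) (hb.low n)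
  induction j with
  | zero =>
    have : (fun n : ℕ => ((S (n + 2 * 0)).card : ℝ) / (S n).card) = fun _ => 1 := by
      ext n; simp only [Nat.mul_zero, Nat.add_zero]; exact div_self (hpos n).ne'
    rw [this]; simp
  | succ j ih =>
    have h1 : Tendsto (fun n : ℕ => ((S (n + 2 * j + 2)).card : ℝ) / (S (n + 2 * j)).card) atTop
        (𝓝 (μ ^ 2)) := hb.ratio.comp (tendsto_add_atTop_nat (2 * j))
    have h2 := h1.mul ih
    have e : μ ^ (2 * (j + 1)) = μ ^ 2 * μ ^ (2 * j) := by rw [← pow_add]; congr 1; ring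
    rw [e]
    refine h2.congr (fun n => ?_)
    have e2 : n + 2 * (j + 1) = n + 2 * j + 2 := by ring
    rw [e2]
    have h3 := (hpos (n + 2 * j)).ne'
    have h4 := (hpos n).ne'
    field_simp

theorem exists_tau (μ ε : ℝ) (hμ : 1 ≤ μ) (hε : 0 < ε) (j : ℕ) :
    ∃ τ : ℝ, 0 < τ ∧ (μ ^ 2 + τ) ^ j ≤ 13 / 12 * μ ^ (2 * j) ∧ τ * (j + 1) * (2 * μ) ≤ ε := by
  have hc : Tendsto (fun τ : ℝ => (μ ^ 2 + τ) ^ j) (𝓝 0) (𝓝 ((μ ^ 2 + 0) ^ j)) :=
    (continuous_const.add continuous_id |>.pow j).tendsto 0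
  have hlt : (μ ^ 2 + 0) ^ j < 13 / 12 * μ ^ (2 * j) := by
    rw [add_zero, ← pow_mul]
    have : 0 < μ ^ (2 * j) := by positivity
    linarith
  have h1 : ∀ᶠ τ in 𝓝[>] (0 : ℝ), (μ ^ 2 + τ) ^ j < 13 / 12 * μ ^ (2 * j) :=
    (hc.eventually_lt_const hlt).filter_mono nhdsWithin_le_nhds
  have h2 : ∀ᶠ τ in 𝓝[>] (0 : ℝ), τ < ε / ((j + 1) * (2 * μ)) :=
    (eventually_lt_nhds (by positivity)).filter_mono nhdsWithin_le_nhds
  have h3 : ∀ᶠ τ in 𝓝[>] (0 : ℝ), 0 < τ := eventually_mem_nhdsWithin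
  obtain ⟨τ, ⟨ha, hb⟩, hc'⟩ := ((h1.and h2).and h3).exists
  refine ⟨τ, hc', ha.le, ?_⟩
  rw [lt_div_iff₀ (by positivity)] at hb
  linarith

theorem t_UNC : S_TR → S_ROT → S_UNC := by
  intro hTR hROT μ hb J i ε hi hiJ hε
  have hμ1 : 1 ≤ μ := by linarith [hb.ge]
  have hμ0 : 0 < μ := by linarith
  obtain ⟨j, rfl⟩ : ∃ j, i = 2 * j := ⟨i / 2, by omega⟩
  obtain ⟨k, rfl⟩ : ∃ k, J = 2 * j + (k + 1) := ⟨J - 2 * j - 1, by omega⟩
  obtain ⟨τ, hτ, hτ1, hτ2⟩ := exists_tau μ ε hμ1 hε j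
  obtain ⟨n0, hn0⟩ := eventually_atTop.1 (hTR μ hb (k + 1) τ hτ)
  have hr := ratio_iter μ hb j
  have hlt : 13 / 14 * μ ^ (2 * j) < μ ^ (2 * j) := by
    have : 0 < μ ^ (2 * j) := by positivity
    linarith
  obtain ⟨n1, hn1⟩ := eventually_atTop.1 (hr.eventually_const_lt hlt)
  filter_upwards [eventually_ge_atTop (n0 + n1 + 2 * j + k + 2)] with N hN
  intro γ hγ0 hγ1
  obtain ⟨n, rfl⟩ : ∃ n, N = n + 1 + 2 * j := ⟨N - 1 - 2 * j, by omega⟩
  set Cg : List Dir → Prop := fun t => γ * (B n t.tail : ℝ) ≤ (A (n + 1) t : ℝ) with hCg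
  set 𝒜 : Finset (List Dir) := (W (k + 1)).filter (fun t => ¬ Cg t) with h𝒜
  have h𝒜len : ∀ u ∈ 𝒜, u.length = k + 1 := by
    intro u hu
    rw [h𝒜, mem_filter, mem_W] at hu
    exact hu.1
  -- the count
  have hcount : ((P (n + 1 + 2 * j)).filter
      (fun v => ¬ Chg (n + 1 + 2 * j) γ (v.take (2 * j + (k + 1))) (2 * j))).card ≤
      ∑ u ∈ 𝒜, A (n + 1 + 2 * j) u := by
    have e1 : (P (n + 1 + 2 * j)).filter
        (fun v => ¬ Chg (n + 1 + 2 * j) γ (v.take (2 * j + (k + 1))) (2 * j)) =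
        (P (n + 1 + 2 * j)).filter (fun v => (fun w : List Dir => ¬ Cg (w.take (k + 1))) (v.rotate (2 * j))) := by
      apply Finset.filter_congr
      intro v hv
      have hlen : v.length = n + 1 + 2 * j := by
        unfold P at hv
        rw [mem_filter, mem_W] at hv
        exact hv.1
      have e2 : (v.take (2 * j + (k + 1))).drop (2 * j) = (v.rotate (2 * j)).take (k + 1) := by
        rw [List.drop_take, List.rotate_eq_drop_append_take (by omega),
          List.take_append_of_le_length (by rw [List.length_drop]; omega)]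
        congr 1
        omega
      have e3 : n + 1 + 2 * j - 2 * j - 1 = n := by omega
      have e4 : n + 1 + 2 * j - 2 * j = n + 1 := by omega
      unfold Chg
      rw [e2, e3, e4]
    have e6 : ((P (n + 1 + 2 * j)).filter
        (fun v => (fun w : List Dir => ¬ Cg (w.take (k + 1))) (v.rotate (2 * j)))).card =
        ((P (n + 1 + 2 * j)).filter (fun v => ¬ Cg (v.take (k + 1)))).card := by
      convert hROT (n + 1 + 2 * j) (2 * j) (fun w => ¬ Cg (w.take (k + 1)))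
    rw [e1, e6]
    rw [Finset.card_eq_sum_card_fiberwise (f := fun v => v.take (k + 1)) (t := 𝒜)]
    · apply Finset.sum_le_sum
      intro u hu
      unfold A
      apply Finset.card_le_card
      intro v hv
      rw [mem_filter, mem_filter] at hv
      rw [mem_filter]
      refine ⟨hv.1.1, ?_⟩
      rw [← hv.2]
      exact List.take_prefix _ _
    · intro v hv
      rw [mem_coe, mem_filter] at hv
      have hlen : v.length = n + 1 + 2 * j := by
        have := hv.1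
        unfold P at this
        rw [mem_filter, mem_W] at this
        exact this.1
      rw [mem_coe, h𝒜, mem_filter, mem_W, List.length_take]
      exact ⟨by omega, hv.2⟩
  have hcountR : (((P (n + 1 + 2 * j)).filter
      (fun v => ¬ Chg (n + 1 + 2 * j) γ (v.take (2 * j + (k + 1))) (2 * j))).card : ℝ) ≤
      ∑ u ∈ 𝒜, (A (n + 1 + 2 * j) u : ℝ) := by exact_mod_cast hcount
  have hit := iterTR μ τ hμ1 hτ (k + 1) n0 hn0 (n + 1) (by omega) 𝒜 h𝒜len j
  have hsmall : (∑ u ∈ 𝒜, (A (n + 1) u : ℝ)) ≤ 6 * γ * (S n).card := by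
    calc (∑ u ∈ 𝒜, (A (n + 1) u : ℝ)) ≤ ∑ u ∈ 𝒜, γ * (B n u.tail : ℝ) := by
          apply Finset.sum_le_sum
          intro u hu
          rw [h𝒜, mem_filter] at hu
          have := hu.2
          rw [hCg] at this
          exact (not_le.1 this).le
      _ ≤ ∑ u ∈ W (k + 1), γ * (B n u.tail : ℝ) := by
          apply Finset.sum_le_sum_of_subset_of_nonneg
          · rw [h𝒜]; exact filter_subset _ _
          · intro u _ _; positivity
      _ = γ * ((∑ u ∈ W (k + 1), B n u.tail : ℕ) : ℝ) := by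
          rw [← mul_sum]; push_cast; rfl
      _ ≤ γ * ((6 * (S n).card : ℕ) : ℝ) := by
          apply mul_le_mul_of_nonneg_left _ hγ0
          rw [Nat.cast_le, sum_W_succ k (fun t => B n t)]
          exact Nat.mul_le_mul_left 6 (sum_B n k)
      _ = _ := by push_cast; ring
  have hS0 : (0 : ℝ) < ((S n).card : ℝ) := lt_of_lt_of_le (by positivity) (hb.low n)
  have hratio : 13 / 14 * μ ^ (2 * j) * (S n).card ≤ ((S (n + 2 * j)).card : ℝ) := by
    have := hn1 n (by omega)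
    rw [lt_div_iff₀ hS0] at this
    exact this.le
  have hlow := hb.low (n + 2 * j)
  have eN : n + 1 + 2 * j - 1 = n + 2 * j := by omega
  rw [eN]
  have hpj : 0 < μ ^ (2 * j) := by positivity
  have hpn : 0 < μ ^ (n + 2 * j) := by positivity
  calc _ ≤ ∑ u ∈ 𝒜, (A (n + 1 + 2 * j) u : ℝ) := hcountR
    _ ≤ (μ ^ 2 + τ) ^ j * (∑ u ∈ 𝒜, (A (n + 1) u : ℝ)) + τ * j * (μ ^ 2 + τ) ^ j * μ ^ (n + 1) := hit
    _ ≤ (13 / 12 * μ ^ (2 * j)) * (6 * γ * (S n).card) +
        τ * j * (13 / 12 * μ ^ (2 * j)) * μ ^ (n + 1) := by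
      apply add_le_add
      · apply mul_le_mul hτ1 hsmall
        · apply Finset.sum_nonneg; intro u _; positivity
        · positivity
      · apply mul_le_mul_of_nonneg_right _ (by positivity)
        apply mul_le_mul_of_nonneg_left hτ1 (by positivity)
    _ = 7 * γ * (13 / 14 * μ ^ (2 * j) * (S n).card) + (13 / 12 * τ * j * μ) * μ ^ (n + 2 * j) := by
      rw [pow_add μ n (2 * j), pow_succ]; ring
    _ ≤ 7 * γ * (S (n + 2 * j)).card + ε * (S (n + 2 * j)).card := by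
      apply add_le_add
      · exact mul_le_mul_of_nonneg_left hratio (by positivity)
      · apply mul_le_mul _ hlow hpn.le hε.le
        have hj : (0 : ℝ) ≤ j := Nat.cast_nonneg j
        have h5 : 0 ≤ τ * j * μ := by positivity
        have h6 : 0 ≤ τ * μ := by positivity
        nlinarith
    _ = _ := by ring

end Pool.Agent.J4H15.EE
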